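import Pool.Agent.helper80.EN.Spec

set_option autoImplicit false

namespace Pool.Agent.helper80.EN

open Subgroup

universe u

theorem rle_com_com {G : Type u} [Group G] (x a : G) :
    com (com x a⁻¹) a⁻¹ = (a⁻¹)⁻¹ * com (x⁻¹ * a * x) a⁻¹ * a⁻¹ := by
  simp only [com]; group

theorem rle_step {G : Type u} [Group G] (hconj : ∀ x y g : G, ∀ n,
    icom (g⁻¹ * x * g) (g⁻¹ * y * g) n = g⁻¹ * icom x y n * g) (x a : G) (n : ℕ) :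
    icom x a⁻¹ (n + 2) = (a⁻¹)⁻¹ * icom (x⁻¹ * a * x) a⁻¹ (n + 1) * a⁻¹ := by
  induction n with
  | zero =>
    change com (com x a⁻¹) a⁻¹ = (a⁻¹)⁻¹ * com (x⁻¹ * a * x) a⁻¹ * a⁻¹
    exact rle_com_com x a
  | succ n ih =>
    have h1 : icom x a⁻¹ (n + 1 + 2) = com (icom x a⁻¹ (n + 2)) a⁻¹ := rfl
    have h2 : icom (x⁻¹ * a * x) a⁻¹ (n + 1 + 1) = com (icom (x⁻¹ * a * x) a⁻¹ (n + 1)) a⁻¹ := rfl
    have h3 := hconj (icom (x⁻¹ * a * x) a⁻¹ (n + 1)) a⁻¹ a⁻¹ 1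
    have h4 : (a⁻¹)⁻¹ * a⁻¹ * a⁻¹ = a⁻¹ := by group
    rw [h4] at h3
    rw [h1, ih, h2]
    exact h3

/-- RLE (Heineken). -/
theorem RLE (hBAS : BAS_stmt.{u}) : RLE_stmt.{u} := by
  intro G _ a ha x
  obtain ⟨hconj, -, hadd, hone, -⟩ := hBAS G
  obtain ⟨n, hn⟩ := ha (x * a⁻¹ * x⁻¹)
  have hn1 : icom a (x * a⁻¹ * x⁻¹) (n + 1) = 1 := by
    rw [hadd, hn, hone]
  refine ⟨n + 2, ?_⟩
  rw [rle_step hconj]
  have h := hconj a (x * a⁻¹ * x⁻¹) x (n + 1)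
  have h5 : x⁻¹ * (x * a⁻¹ * x⁻¹) * x = a⁻¹ := by group
  rw [h5, hn1] at h
  rw [h]
  group

end Pool.Agent.helper80.EN
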